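import Pool.Agent.H95.FC.Targets

/-!
# Sums over a line
-/

set_option autoImplicit false

open MeasureTheory Set Filter NumberField
open Pool.Agent.H31.CN Pool.Agent.H89.FM Pool.Agent.H61.FM Pool.Agent.H89.FC Pool.Agent.H95.FC
open scoped Real nonZeroDivisors Matrix MatrixGroups

namespace Pool.Agent.H39.FC

open Classical in
theorem pf_IOS (hFLF : Pool.Agent.H95.FC.T_FLF) (hFRA : Pool.Agent.H95.FC.T_FRA) :
    Pool.Agent.H95.FC.T_IOS := by
  intro m f Q V W h a hf hVW hQ hd hs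
  obtain ⟨hval, -, -, hinj, hran⟩ := hFLF f Q V W hf hVW
  obtain ⟨-, -, -, han, -⟩ := hFRA f Q V W hf hVW hQ hd
  have h2 := hs.mul_left (an (zx Q) (zy Q) V ^ m)
  refine (hinj.hasSum_iff (fun u hu => ?_)).1 ?_
  · rw [if_neg]
    rintro ⟨h3, -⟩
    exact hu ((hran u).1 h3)
  · have he : ((fun u : ℤ × ℤ => if (f : ℤ) ∣ det V u ∧ u ≠ 0 then an (zx Q) (zy Q) u ^ m *
        h (val Q u) else 0) ∘ (io f V W)) = fun v : ℤ × ℤ => an (zx Q) (zy Q) V ^ m *
        (if v ≠ 0 then an (zx (fl f Q V W)) (zy (fl f Q V W)) v ^ m *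
          h (val (fl f Q V W) v) else 0) := by
      funext v
      have h3 : (f : ℤ) ∣ det V (io f V W v) := (hran _).2 ⟨v, rfl⟩
      simp only [Function.comp_apply]
      by_cases hv : v = 0
      · subst hv
        simp
      · have h4 : io f V W v ≠ 0 := fun h5 => hv (hinj (by rw [h5, map_zero]))
        rw [if_pos ⟨h3, h4⟩, if_pos hv, han v, hval v, mul_zpow]
        ring
    rw [he]
    exact h2

end Pool.Agent.H39.FC
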