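import Pool.Agent.H89.FC.Targets2

/-!
# The completed Epstein zeta function of weight `2 m ≠ 0` vanishes at `0`
-/

set_option autoImplicit false

open MeasureTheory Set Filter
open scoped Real Matrix MatrixGroups

namespace Pool.Agent.H39.FC

open Pool.Agent.H31.CN Pool.Agent.H89.FM Pool.Agent.H89.FC

/-- the bound function -/
theorem pow_exp (k : ℕ) (b : ℝ) (hb : 0 < b) :
    IntegrableOn (fun u : ℝ => u ^ k * Real.exp (-(b * u))) (Ioi 1) ∧
    Tendsto (fun u : ℝ => u ^ k * Real.exp (-(b * u))) atTop (nhds 0) := by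
  constructor
  · apply integrable_of_isBigO_exp_neg (b := b / 2) (by positivity)
    · exact Continuous.continuousOn (by fun_prop)
    · have h := (isLittleO_pow_exp_pos_mul_atTop k (b := b / 2) (by positivity)).isBigO
      have h2 := h.mul (Asymptotics.isBigO_refl (fun u : ℝ => Real.exp (-(b * u))) atTop)
      refine h2.trans (Asymptotics.IsBigO.of_bound 1 (Eventually.of_forall fun u => ?_))
      rw [← Real.exp_add, one_mul]
      apply le_of_eq
      congr 2
      ring
  · have h := tendsto_rpow_mul_exp_neg_mul_atTop_nhds_zero (k : ℝ) b hb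
    refine h.congr' ?_
    filter_upwards [eventually_gt_atTop 0] with u hu
    rw [Real.rpow_natCast, neg_mul]

/-- the derivative of the antiderivative -/
theorem hder (M : ℕ) (r u : ℝ) (hu : u ≠ 0) (hr : 0 < r) :
    HasDerivAt (fun u : ℝ => (((M : ℂ) + 1 - 2 * π * (u * r)) + u * ((M : ℂ) - 2 * π * (u * r))) *
      ((u : ℂ) * r) ^ M * Complex.exp (-(2 * π * (u * r))))
      (Kmi M 1 0 (r : ℂ) u) u := by
  have hc : HasDerivAt (fun u : ℝ => (u : ℂ)) 1 u := Complex.ofRealCLM.hasDerivAt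
  have hur : HasDerivAt (fun u : ℝ => (u : ℂ) * r) r u := by
    simpa using hc.mul_const (r : ℂ)
  have h1 : HasDerivAt (fun u : ℝ => (M : ℂ) + 1 - 2 * π * (u * r)) (-(2 * π * r)) u := by
    simpa using (hur.const_mul (2 * (π : ℂ))).const_sub ((M : ℂ) + 1)
  have h2 : HasDerivAt (fun u : ℝ => (M : ℂ) - 2 * π * (u * r)) (-(2 * π * r)) u := by
    simpa using (hur.const_mul (2 * (π : ℂ))).const_sub (M : ℂ)
  have h3 := hur.pow M
  have h4 : HasDerivAt (fun u : ℝ => Complex.exp (-(2 * π * (u * r))))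
      (Complex.exp (-(2 * π * (u * r))) * (-(2 * π * r))) u := by
    have h := ((hur.const_mul (2 * (π : ℂ))).neg).cexp
    exact h
  have h := ((h1.add (hc.mul h2)).mul h3).mul h4
  refine h.congr_deriv ?_
  have hu' : (u : ℂ) ≠ 0 := by exact_mod_cast hu
  have hr' : (r : ℂ) ≠ 0 := by exact_mod_cast hr.ne'
  unfold Kmi phm
  simp only [inv_one, one_mul, sub_zero, Complex.cpow_zero, Complex.cpow_one, mul_one, Pi.add_apply,
    Pi.mul_apply, Pi.pow_apply]
  rw [eq_div_iff hu']
  rcases M with _ | M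
  · simp only [Nat.cast_zero, pow_zero]
    ring_nf
  · simp only [Nat.add_sub_cancel, pow_succ]
    push_cast
    ring

/-- a polynomial bound -/
theorem bnd (M : ℕ) (r : ℝ) (hr : 0 < r) : ∃ C : ℝ, 0 ≤ C ∧ ∀ u : ℝ, 1 ≤ u →
    ‖Kmi M 1 0 (r : ℂ) u‖ ≤ C * (u ^ (M + 2) * Real.exp (-(2 * π * r * u))) ∧
    ‖(((M : ℂ) + 1 - 2 * π * (u * r)) + u * ((M : ℂ) - 2 * π * (u * r))) *
      ((u : ℂ) * r) ^ M * Complex.exp (-(2 * π * (u * r)))‖ ≤
      C * (u ^ (M + 2) * Real.exp (-(2 * π * r * u))) := by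
  set A : ℝ := (M + 1 + 2 * π * r) ^ 2 + M + 4 * π * r with hA
  have hp := Real.pi_pos
  have hA0 : 0 ≤ A := by positivity
  refine ⟨2 * A * r ^ M, by positivity, fun u hu => ?_⟩
  have hu0 : 0 < u := by linarith
  have he : ‖Complex.exp (-(2 * π * ((u : ℂ) * r)))‖ = Real.exp (-(2 * π * r * u)) := by
    rw [Complex.norm_exp]
    congr 1
    have : (-(2 * π * ((u : ℂ) * r))) = ((-(2 * π * r * u) : ℝ) : ℂ) := by push_cast; ring
    rw [this, Complex.ofReal_re]
  have hm : ‖((u : ℂ) * r) ^ M‖ = u ^ M * r ^ M := by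
    rw [norm_pow, norm_mul, Complex.norm_real, Complex.norm_real, Real.norm_of_nonneg hu0.le,
      Real.norm_of_nonneg hr.le, mul_pow]
  have h1u : (1 : ℝ) ≤ u ^ 2 := one_le_pow₀ hu
  have huu : u ≤ u ^ 2 := by nlinarith
  have q : ‖(2 * π * ((u : ℂ) * r))‖ = 2 * π * r * u := by
    have : (2 * π * ((u : ℂ) * r)) = ((2 * π * r * u : ℝ) : ℂ) := by push_cast; ring
    rw [this, Complex.norm_real, Real.norm_of_nonneg (by positivity)]
  have hMn : ‖(M : ℂ)‖ = M := by simp
  have hb1 : ‖(M : ℂ) - 2 * π * ((u : ℂ) * r)‖ ≤ (M + 1 + 2 * π * r) * u := by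
    refine (norm_sub_le _ _).trans ?_
    rw [q, hMn]
    nlinarith [(Nat.cast_nonneg M : (0 : ℝ) ≤ M)]
  have hb2 : ‖(M : ℂ) + 1 - 2 * π * ((u : ℂ) * r)‖ ≤ (M + 1 + 2 * π * r) * u := by
    refine (norm_sub_le _ _).trans ?_
    have : ‖(M : ℂ) + 1‖ ≤ M + 1 := (norm_add_le _ _).trans (by simp)
    rw [q]
    nlinarith [(Nat.cast_nonneg M : (0 : ℝ) ≤ M)]
  have hge : (1 : ℝ) ≤ M + 1 + 2 * π * r := by
    have : (0 : ℝ) ≤ M := Nat.cast_nonneg M
    have : 0 < 2 * π * r := by positivity
    linarith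
  constructor
  · have hph : ‖phm M ((u : ℂ) * r)‖ ≤ A * r ^ M * (u ^ (M + 2) * Real.exp (-(2 * π * r * u))) := by
      unfold phm
      rw [norm_mul, norm_mul, hm, he]
      have : ‖((M : ℂ) - 2 * π * ((u : ℂ) * r)) ^ 2 + M - 4 * π * ((u : ℂ) * r)‖ ≤ A * u ^ 2 := by
        refine (norm_sub_le _ _).trans ?_
        have h1 : ‖((M : ℂ) - 2 * π * ((u : ℂ) * r)) ^ 2 + M‖ ≤ ((M + 1 + 2 * π * r) * u) ^ 2 + M := by
          refine (norm_add_le _ _).trans ?_
          rw [norm_pow, hMn]
          have := pow_le_pow_left₀ (norm_nonneg _) hb1 2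
          linarith
        have h2 : ‖4 * π * ((u : ℂ) * r)‖ = 4 * π * r * u := by
          have : (4 * π * ((u : ℂ) * r)) = ((4 * π * r * u : ℝ) : ℂ) := by push_cast; ring
          rw [this, Complex.norm_real, Real.norm_of_nonneg (by positivity)]
        rw [h2, hA]
        have h3 : (M : ℝ) ≤ M * u ^ 2 := by
          nlinarith [(Nat.cast_nonneg M : (0 : ℝ) ≤ M)]
        have h4 : 4 * π * r * u ≤ 4 * π * r * u ^ 2 := by
          have : 0 < 4 * π * r := by positivity
          nlinarith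
        nlinarith
      calc _ ≤ A * u ^ 2 * (u ^ M * r ^ M) * Real.exp (-(2 * π * r * u)) := by gcongr
        _ = _ := by ring
    unfold Kmi
    simp only [inv_one, one_mul, sub_zero, Complex.cpow_zero, Complex.cpow_one, mul_one]
    rw [norm_div, Complex.norm_real, Real.norm_of_nonneg hu0.le, div_le_iff₀ hu0]
    refine (norm_add_le _ _).trans ?_
    rw [norm_mul, Complex.norm_real, Real.norm_of_nonneg hu0.le]
    have h0 := norm_nonneg (phm M ((u : ℂ) * r))
    nlinarith
  · rw [norm_mul, norm_mul, hm, he]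
    have : ‖((M : ℂ) + 1 - 2 * π * ((u : ℂ) * r)) + u * ((M : ℂ) - 2 * π * (u * r))‖ ≤
        2 * A * u ^ 2 := by
      refine (norm_add_le _ _).trans ?_
      rw [norm_mul, Complex.norm_real, Real.norm_of_nonneg hu0.le]
      have hA1 : M + 1 + 2 * π * r ≤ A := by
        rw [hA]
        have : (0 : ℝ) ≤ M := Nat.cast_nonneg M
        have : 0 < 4 * π * r := by positivity
        nlinarith
      have e1 : u * ‖(M : ℂ) - 2 * π * (u * r)‖ ≤ u * ((M + 1 + 2 * π * r) * u) := by gcongr
      have e2 : (M + 1 + 2 * π * r) * u ≤ A * u ^ 2 := by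
        have : (M + 1 + 2 * π * r) * u ≤ A * u := by gcongr
        nlinarith
      have e3 : (M + 1 + 2 * π * r) * u ^ 2 ≤ A * u ^ 2 := by gcongr
      nlinarith
    calc _ ≤ 2 * A * u ^ 2 * (u ^ M * r ^ M) * Real.exp (-(2 * π * r * u)) := by gcongr
      _ = _ := by ring

/-- the kernel at `s = 0` -/
theorem kmc0 (M : ℕ) (r : ℝ) (hr : 0 < r) : Kmc M 1 0 (r : ℂ) =
    -((2 * M + 1 - 4 * π * r) * (r : ℂ) ^ M * Complex.exp (-(2 * π * r))) := by
  obtain ⟨C, hC, hb⟩ := bnd M r hr
  have hp := Real.pi_pos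
  obtain ⟨hi, ht⟩ := pow_exp (M + 2) (2 * π * r) (by positivity)
  unfold Kmc
  have hm : AEStronglyMeasurable (Kmi M 1 0 (r : ℂ)) (volume.restrict (Ioi 1)) := by
    apply ContinuousOn.aestronglyMeasurable _ measurableSet_Ioi
    intro u hu
    have hu0 : (u : ℝ) ≠ 0 := by
      have : (1 : ℝ) < u := hu
      linarith
    apply ContinuousAt.continuousWithinAt
    unfold Kmi phm
    simp only [inv_one, one_mul, sub_zero, Complex.cpow_zero, Complex.cpow_one, mul_one]
    have hu' : (u : ℂ) ≠ 0 := by exact_mod_cast hu0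
    fun_prop (disch := assumption)
  have h := integral_Ioi_of_hasDerivAt_of_tendsto'
    (f := fun u : ℝ => (((M : ℂ) + 1 - 2 * π * (u * r)) + u * ((M : ℂ) - 2 * π * (u * r))) *
      ((u : ℂ) * r) ^ M * Complex.exp (-(2 * π * (u * r)))) (f' := Kmi M 1 0 (r : ℂ))
    (a := 1) (m := 0)
    (fun u hu => hder M r u (by
      have : (1 : ℝ) ≤ u := hu
      linarith) hr)
    (Integrable.mono' (hi.const_mul C) hm (by
      rw [ae_restrict_iff' measurableSet_Ioi]
      refine Eventually.of_forall fun u hu => (hb u (le_of_lt hu)).1))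
    (by
      rw [tendsto_zero_iff_norm_tendsto_zero]
      refine squeeze_zero' (Eventually.of_forall fun u => norm_nonneg _)
        (g := fun u : ℝ => C * (u ^ (M + 2) * Real.exp (-(2 * π * r * u)))) ?_ ?_
      · filter_upwards [eventually_ge_atTop 1] with u hu
        exact (hb u hu).2
      · simpa using ht.const_mul C)
  rw [h]
  push_cast
  ring_nf

theorem qz_pos {x y : ℝ} (hy : 0 < y) {v : ℤ × ℤ} (hv : v ≠ 0) : 0 < qz x y v := by
  unfold qz
  apply div_pos _ (by positivity)
  by_cases h : v.2 = 0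
  · have h1 : v.1 ≠ 0 := fun h1 => hv (Prod.ext h1 h)
    have h2 : (v.1 : ℝ) ≠ 0 := by exact_mod_cast h1
    rw [h]
    simp only [Int.cast_zero, zero_mul, add_zero]
    positivity
  · have h2 : (v.2 : ℝ) ≠ 0 := by exact_mod_cast h
    have h3 : (0 : ℝ) < ((v.2 : ℝ) * y) ^ 2 := by positivity
    have h4 : (0 : ℝ) ≤ ((v.1 : ℝ) + v.2 * x) ^ 2 := by positivity
    linarith

open Classical in
theorem pf_EZ0 (hTHL : T_THLm) (hTHH : T_THHm) : T_EZ0 := by
  intro m n L x y hm hn hL hy
  obtain ⟨hd, hinv⟩ := hTHH m n L x y hm hn hL hy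
  have hq : ∀ v : ℤ × ℤ, v ≠ 0 → 0 < qz x y v / n := fun v hv =>
    div_pos (qz_pos hy hv) (by exact_mod_cast hn)
  have hp := Real.pi_pos
  set M := m.natAbs with hM
  -- the terms are differentiable
  have hdt : ∀ v : ℤ × ℤ, Differentiable ℂ (fun w : ℂ => thm m n L x y w v) := by
    intro v
    unfold thm
    by_cases h : v ∈ L ∧ v ≠ 0
    · simp only [h, not_false_eq_true, and_self, if_true, ne_eq]
      fun_prop
    · simp only [h, if_false]
      fun_prop
  -- the series of derivatives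
  have hU : IsOpen (Metric.ball (1 : ℂ) (1 / 2)) := Metric.isOpen_ball
  have hs : HasSum (fun v : ℤ × ℤ => deriv (fun w : ℂ => thm m n L x y w v) 1)
      (deriv (fun w : ℂ => ∑' v, thm m n L x y w v) 1) := by
    have hsum := (hTHL m n L x y (1 / 2) hm hn hL hy (by norm_num)).1
    refine Complex.hasSum_deriv_of_summable_norm (U := Metric.ball (1 : ℂ) (1 / 2))
      (hsum.mul_left (3 ^ M)) (fun v => (hdt v).differentiableOn) hU ?_ (by simp)
    intro v w hw
    have hw1 : ‖w - 1‖ < 1 / 2 := by simpa [dist_eq_norm] using hw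
    have hwn : ‖w‖ ≤ 3 / 2 := by
      have : ‖w‖ ≤ ‖w - 1‖ + ‖(1 : ℂ)‖ := by simpa using norm_add_le (w - 1) 1
      rw [norm_one] at this
      linarith
    have hwr : 1 / 2 ≤ w.re := by
      have h1 := Complex.abs_re_le_norm (w - 1)
      have h2 := abs_le.1 h1
      simp only [Complex.sub_re, Complex.one_re] at h2
      linarith [h2.1]
    unfold thm
    by_cases h : v ∈ L ∧ v ≠ 0
    · rw [if_pos h, if_pos h]
      have q := hq v h.2
      set r : ℝ := qz x y v / n with hr
      rw [norm_mul, norm_mul, norm_mul, norm_mul, norm_pow, norm_pow, norm_mul, norm_mul,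
        Complex.norm_exp, Complex.norm_exp, Complex.norm_real, Complex.norm_real,
        Real.norm_of_nonneg q.le]
      have e1 : (-(2 * π * w * (r : ℂ))).re = -(2 * π * w.re * r) := by
        have : (-(2 * π * w * (r : ℂ))) = ((-(2 * π * r) : ℝ) : ℂ) * w := by push_cast; ring
        rw [this, Complex.re_ofReal_mul]
        ring
      have e2 : (-(2 * π * ((1 / 2 : ℝ) : ℂ) * (r : ℂ))).re = -(2 * π * (1 / 2) * r) := by
        have : (-(2 * π * ((1 / 2 : ℝ) : ℂ) * (r : ℂ))) = ((-(2 * π * (1 / 2) * r) : ℝ) : ℂ) := by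
          push_cast; ring
        rw [this, Complex.ofReal_re]
      rw [e1, e2, Real.norm_of_nonneg (by norm_num : (0 : ℝ) ≤ 1 / 2)]
      have h3 : (‖w‖ * r) ^ M ≤ 3 ^ M * (1 / 2 * r) ^ M := by
        rw [← mul_pow]
        apply pow_le_pow_left₀ (by positivity)
        nlinarith
      have h4 : Real.exp (-(2 * π * w.re * r)) ≤ Real.exp (-(2 * π * (1 / 2) * r)) := by
        apply Real.exp_le_exp.2
        have : 0 < 2 * π * r := by positivity
        nlinarith
      calc ‖an x y v ^ m‖ * (‖w‖ * r) ^ M * Real.exp (-(2 * π * w.re * r))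
          ≤ ‖an x y v ^ m‖ * (3 ^ M * (1 / 2 * r) ^ M) * Real.exp (-(2 * π * (1 / 2) * r)) := by
            gcongr
        _ = _ := by ring
    · rw [if_neg h, if_neg h]
      simp
  -- the function
  have hT : (fun w : ℂ => ∑' v, thm m n L x y w v) = ThM m n L x y := rfl
  rw [hT] at hs
  set D := deriv (ThM m n L x y) 1 with hD
  have h1m : (1 : ℂ) ∈ {w : ℂ | 0 < w.re} := by simp
  have hop : IsOpen {w : ℂ | 0 < w.re} := isOpen_lt continuous_const Complex.continuous_re
  have hdiff : HasDerivAt (ThM m n L x y) D 1 :=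
    ((hd 1 h1m).differentiableAt (hop.mem_nhds h1m)).hasDerivAt
  have hA : HasDerivAt (fun w : ℂ => ThM m n L x y w⁻¹) (D * (-1)) 1 := by
    have hi : HasDerivAt (fun w : ℂ => w⁻¹) (-1) 1 := by
      simpa using hasDerivAt_inv (one_ne_zero : (1 : ℂ) ≠ 0)
    have hd' : HasDerivAt (ThM m n L x y) D ((1 : ℂ)⁻¹) := by simpa using hdiff
    exact hd'.comp (1 : ℂ) hi
  have hB : HasDerivAt (fun w : ℂ => w * ThM m n L x y w) (ThM m n L x y 1 + D) 1 := by
    have h := (hasDerivAt_id (1 : ℂ)).mul hdiff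
    refine h.congr_deriv ?_
    simp
  have hE : D * (-1) = ThM m n L x y 1 + D := by
    refine (hA.congr_of_eventuallyEq ?_).unique hB
    filter_upwards [hop.mem_nhds h1m] with w hw
    exact (hinv w hw).symm
  have hS1 : Summable (fun v : ℤ × ℤ => thm m n L x y 1 v) := by
    have := (hTHL m n L x y 1 hm hn hL hy one_pos).1
    simpa using this.of_norm
  have hsum : HasSum (fun v : ℤ × ℤ => 2 * deriv (fun w : ℂ => thm m n L x y w v) 1 +
      thm m n L x y 1 v) (2 * D + ThM m n L x y 1) := (hs.mul_left 2).add hS1.hasSum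
  have hz : 2 * D + ThM m n L x y 1 = 0 := by linear_combination -hE
  have hterm : ∀ v : ℤ × ℤ, (if v ∈ L ∧ v ≠ 0 then
      an x y v ^ m * Kmc M 1 0 ((qz x y v / n : ℝ) : ℂ) else 0) =
      -(2 * deriv (fun w : ℂ => thm m n L x y w v) 1 + thm m n L x y 1 v) := by
    intro v
    by_cases h : v ∈ L ∧ v ≠ 0
    · have q := hq v h.2
      rw [if_pos h, kmc0 M _ q]
      set r : ℝ := qz x y v / n with hr
      have hf : (fun w : ℂ => thm m n L x y w v) = fun w : ℂ => an x y v ^ m * (w * (r : ℂ)) ^ M *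
          Complex.exp (-(2 * π * w * (r : ℂ))) := by
        funext w
        unfold thm
        rw [if_pos h]
      have hw : HasDerivAt (fun w : ℂ => w * (r : ℂ)) r 1 := by
        simpa using (hasDerivAt_id (1 : ℂ)).mul_const (r : ℂ)
      have h5 : HasDerivAt (fun w : ℂ => Complex.exp (-(2 * π * w * (r : ℂ))))
          (Complex.exp (-(2 * π * 1 * (r : ℂ))) * (-(2 * π * r))) 1 := by
        apply HasDerivAt.cexp
        have := ((hasDerivAt_id (1 : ℂ)).const_mul (2 * (π : ℂ))).mul_const (r : ℂ)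
        exact this.neg.congr_deriv (by simp)
      have h6 := ((hw.pow M).const_mul (an x y v ^ m)).mul h5
      rw [hf]
      have h7 : deriv (fun w : ℂ => an x y v ^ m * (w * (r : ℂ)) ^ M *
          Complex.exp (-(2 * π * w * (r : ℂ)))) 1 =
          an x y v ^ m * ((M - 2 * π * r) * (r : ℂ) ^ M * Complex.exp (-(2 * π * r))) := by
        refine Eq.trans h6.deriv ?_
        simp only [Pi.pow_apply, one_mul, mul_one]
        rcases hMM : M with _ | k
        · simp only [Nat.cast_zero, pow_zero]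
          ring
        · simp only [Nat.add_sub_cancel, pow_succ]
          push_cast
          ring
      rw [h7]
      have h8 : thm m n L x y 1 v = an x y v ^ m * (r : ℂ) ^ M * Complex.exp (-(2 * π * r)) := by
        have := congrFun hf 1
        simp only [one_mul, mul_one] at this
        exact this
      rw [h8]
      ring
    · rw [if_neg h]
      have hf : (fun w : ℂ => thm m n L x y w v) = fun w : ℂ => 0 := by
        funext w
        unfold thm
        rw [if_neg h]
      rw [hf, show thm m n L x y 1 v = 0 from congrFun hf 1]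
      simp
  unfold Em
  rw [tsum_congr hterm, tsum_neg, hsum.tsum_eq, hz, neg_zero]

end Pool.Agent.H39.FC
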